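import Pool.Agent.Lib.MP_6bc78b_nt.MS.P4.Iface2

/-! Project MS, Part IV: the numerical statements for multiplicities at least `3` and `4`. -/

set_option autoImplicit false

namespace Pool.Agent.Lib.MP_6bc78b_nt.MS.P4.H57

open Pool.Agent.Lib.MP_6bc78b_nt.MS

theorem num3 : Num3Statement := by
  refine ⟨0.4999, 0.9999, -4.1, -2.5, 16.6, by norm_num, by norm_num, by norm_num, by norm_num,
    by norm_num, ?_⟩
  unfold QQ m2 m3 m1
  norm_num

theorem num4 : Num4Statement := by
  refine ⟨0.49999, 0.99999, -7.2, -3.6, 26, by norm_num, by norm_num, by norm_num, by norm_num,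
    by norm_num, ?_⟩
  unfold QQ m2 m3 m1
  norm_num

end Pool.Agent.Lib.MP_6bc78b_nt.MS.P4.H57
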